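import Pool.Agent.Q50.GN.Defs

/-!
# Simple modules and common constituents: the algebra
-/

set_option autoImplicit false
set_option maxHeartbeats 4000000
set_option synthInstance.maxHeartbeats 400000
set_option linter.unusedSectionVars false
set_option linter.ambiguousOpen false

universe u

open Matrix

namespace Pool.Agent.Q50.ES.GO

variable {K : Type u} [Field K]

/-- The elements of the algebra whose first `j` columns vanish. -/
def colIdeal {B : Type u} [Ring B] [Algebra K B] {n : ℕ}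
    (π : B →ₐ[K] Matrix (Fin n) (Fin n) K) (j : ℕ) : Submodule B B where
  carrier := {b | ∀ i : Fin n, i.val < j → ∀ k, π b k i = 0}
  add_mem' := by
    intro a b ha hb i hi k
    rw [map_add, Matrix.add_apply, ha i hi k, hb i hi k, add_zero]
  zero_mem' := by
    intro i hi k
    rw [map_zero, Matrix.zero_apply]
  smul_mem' := by
    intro a b hb i hi k
    rw [smul_eq_mul, map_mul, Matrix.mul_apply]
    exact Finset.sum_eq_zero fun l _ => by rw [hb i hi l, mul_zero]

/-- A simple module killed by the kernel of a representation is a subquotient of it. -/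
theorem subquotient_of_ker_le {B : Type u} [Ring B] [Algebra K B] {n : ℕ}
    (π : B →ₐ[K] Matrix (Fin n) (Fin n) K) (M : Submodule B B) (hM : IsCoatom M)
    (hker : ∀ b, π b = 0 → b ∈ M) :
    ∃ A : Submodule K (Fin n → K), ∃ φ : A →ₗ[K] (B ⧸ M), Function.Surjective φ ∧
      ∀ (b : B) (v : A), ∃ h : π b *ᵥ v.1 ∈ A, φ ⟨π b *ᵥ v.1, h⟩ = b • φ v := by
  classical
  have hPn : colIdeal π n ≤ M := by
    intro b hb
    apply hker
    ext k i
    rw [Matrix.zero_apply]
    exact hb i i.isLt k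
  have hex : ∃ j, colIdeal π j ≤ M := ⟨n, hPn⟩
  have hj := Nat.find_spec hex
  have hmin := fun i (hi : i < Nat.find hex) => Nat.find_min hex hi
  have hj0 : Nat.find hex ≠ 0 := by
    intro h0
    rw [h0] at hj
    apply hM.1
    rw [eq_top_iff]
    exact fun b _ => hj fun i hi => absurd hi (Nat.not_lt_zero _)
  obtain ⟨j, hjj⟩ := Nat.exists_eq_succ_of_ne_zero hj0
  rw [hjj] at hj hmin
  have hU : ¬ colIdeal π j ≤ M := hmin j (Nat.lt_succ_self j)
  have hjn : j < n := by
    by_contra hcon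
    push Not at hcon
    apply hU
    intro b hb
    exact hPn fun i hi k => hb i (by omega) k
  let U : Submodule K B := (colIdeal π j).restrictScalars K
  let c : U →ₗ[K] (Fin n → K) :=
    { toFun := fun b k => π b.1 k ⟨j, hjn⟩
      map_add' := fun a b => by
        ext k
        simp
      map_smul' := fun a b => by
        ext k
        simp }
  let q : U →ₗ[K] (B ⧸ M) := (M.mkQ.restrictScalars K).comp U.subtype
  have hcq : LinearMap.ker c ≤ LinearMap.ker q := by
    intro b hb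
    have hb' : c b = 0 := hb
    have hbM : b.1 ∈ colIdeal π (j + 1) := by
      intro i hi k
      rcases Nat.lt_succ_iff_lt_or_eq.1 hi with h | h
      · exact b.2 i h k
      · have : i = ⟨j, hjn⟩ := Fin.ext h
        rw [this]
        exact congrFun hb' k
    change q b = 0
    exact (Submodule.Quotient.mk_eq_zero M).2 (hj hbM)
  let φ : LinearMap.range c →ₗ[K] (B ⧸ M) :=
    ((LinearMap.ker c).liftQ q hcq).comp (c.quotKerEquivRange.symm : _ →ₗ[K] _)
  have hφ : ∀ u : U, φ ⟨c u, ⟨u, rfl⟩⟩ = q u := by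
    intro u
    change (LinearMap.ker c).liftQ q hcq (c.quotKerEquivRange.symm ⟨c u, _⟩) = q u
    have : c.quotKerEquivRange.symm ⟨c u, ⟨u, rfl⟩⟩ = (LinearMap.ker c).mkQ u := by
      rw [LinearEquiv.symm_apply_eq]
      rfl
    rw [this]
    exact Submodule.liftQ_apply _ _ _
  refine ⟨LinearMap.range c, φ, ?_, ?_⟩
  · intro y
    obtain ⟨b, rfl⟩ := M.mkQ_surjective y
    have htop : colIdeal π j ⊔ M = ⊤ := by
      apply hM.2
      rw [right_lt_sup]
      exact hU
    have hb : b ∈ colIdeal π j ⊔ M := by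
      rw [htop]
      trivial
    obtain ⟨u, hu, m, hm, hum⟩ := Submodule.mem_sup.1 hb
    refine ⟨⟨c ⟨u, hu⟩, ⟨⟨u, hu⟩, rfl⟩⟩, ?_⟩
    rw [hφ ⟨u, hu⟩]
    change M.mkQ u = M.mkQ b
    rw [← hum, map_add]
    have : M.mkQ m = 0 := (Submodule.Quotient.mk_eq_zero M).2 hm
    rw [this, add_zero]
  · rintro b ⟨_, u, rfl⟩
    have hbu : b * u.1 ∈ U := (colIdeal π j).smul_mem b u.2
    have hcu : π b *ᵥ c u = c ⟨b * u.1, hbu⟩ := by
      ext k
      change ∑ l, π b k l * π u.1 l ⟨j, hjn⟩ = π (b * u.1) k ⟨j, hjn⟩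
      rw [map_mul, Matrix.mul_apply]
    refine ⟨by rw [hcu]; exact ⟨_, rfl⟩, ?_⟩
    have h1 : φ ⟨π b *ᵥ c u, by rw [hcu]; exact ⟨_, rfl⟩⟩ = φ ⟨c ⟨b * u.1, hbu⟩, ⟨_, rfl⟩⟩ := by
      congr 1
      exact Subtype.ext hcu
    change φ ⟨π b *ᵥ c u, _⟩ = b • φ ⟨c u, _⟩
    rw [h1, hφ, hφ]
    rfl

end Pool.Agent.Q50.ES.GO
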