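import Pool.Agent.Q50.GN.Defs

/-!
# Galois representations of geometric origin: data and known facts
-/

set_option autoImplicit false
set_option linter.ambiguousOpen false

universe u

open NumberField Matrix

namespace Pool.Agent.Q50.ES.GO

open GN (MatN RepN)
open GE (ImaginaryQuadratic)

/-- `F` is a number field. -/
def IsNumberField (F : Fld) : Prop := FiniteDimensional ℚ F

variable {K : Type u} [Field K] [TopologicalSpace K]

/-- `t` is a subquotient of `r` on the set `S`: there are a subspace `A` of `Kⁿ`, stable under the
`r g`, and a surjective map `A → K^d` which carries the action of `r g` to that of `t g`. -/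
def Subquotient {d n : ℕ} (S : Set Γ) (t : Γ → MatN K d) (r : Γ → MatN K n) : Prop :=
  ∃ A : Submodule K (Fin n → K), ∃ φ : A →ₗ[K] (Fin d → K), Function.Surjective φ ∧
    ∀ g ∈ S, ∀ v : A, ∃ h : r g *ᵥ v.1 ∈ A, φ ⟨r g *ᵥ v.1, h⟩ = t g *ᵥ φ v

/-- The representations `r` and `s` have a common non-zero subquotient on `Gal(Ω/L)`. -/
def CommonConstituent (L : Fld) {n m : ℕ} {F F' : Fld} (r : RepN K n F) (s : RepN K m F') :
    Prop :=
  ∃ d : ℕ, 0 < d ∧ ∃ t : Γ → MatN K d, Subquotient (Gal L) t r.toFun ∧ Subquotient (Gal L) t s.toFun

/-- The representation is irreducible: it is not zero, and the only stable subspaces are zero and the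
whole space. -/
def Irreducible {n : ℕ} {F : Fld} (r : RepN K n F) : Prop :=
  0 < n ∧ ∀ A : Submodule K (Fin n → K), (∀ g ∈ Gal F, ∀ v ∈ A, r.toFun g *ᵥ v ∈ A) →
    A = ⊥ ∨ A = ⊤

variable (K)

/-- Galois representations of number fields; `K` is an algebraic closure of `ℚ_p` for a fixed prime
`p`. `Geometric R`: the representation `R` over the number field `F` arises from étale cohomology, it is
isomorphic to a subquotient of `H^i(X, K)(j)` for a smooth projective variety `X` over `F`;
`Unramified R`: `R` is unramified at almost all places of `F`; `Form F`, for an imaginary quadratic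
field `F` in which `p` is unramified: the Bianchi newforms over `F` as in Q1 whose level is prime to `p`
(none for the other `F`); `gal f`: the Galois representation of `f`. `place L`: the finite places of
`L`; `norm w`: the number of elements of the residue field of `w`; `frob w`: a Frobenius element of `w`
in `Gal(Ω/L)`. -/
structure Data where
  /-- geometric origin -/
  Geometric : ∀ {n F}, RepN K n F → Prop
  /-- unramified at almost all places -/
  Unramified : ∀ {n F}, RepN K n F → Prop
  /-- Bianchi newforms -/
  Form : Fld → Type u
  /-- the Galois representation -/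
  gal : ∀ {F}, Form F → RepN K 2 F
  /-- the finite places -/
  place : Fld → Type
  /-- the norm -/
  norm : ∀ {L}, place L → ℕ
  /-- a Frobenius element -/
  frob : ∀ {L}, place L → Γ

namespace Data

variable {K} (T : Data K)

/-- The finite places of `L` for which the `k`-th powers of the Frobenius traces of `R` and `S` agree and
are not zero. -/
def Agree {n m : ℕ} {F L : Fld} (R : RepN K n F) (S : RepN K m L) (k : ℕ) : Set (T.place L) :=
  {w | (R.toFun (T.frob w)).trace ^ k = (S.toFun (T.frob w)).trace ^ k ∧
    (R.toFun (T.frob w)).trace ≠ 0}

/-- Over some finite Galois extension `L` of `F` there is a representation `S` of any dimension which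
arises from étale cohomology, and some `k ≥ 1`, such that the `k`-th powers of the Frobenius traces
of `R` and `S` agree and are not zero for a set of places of `L` of positive upper density. -/
def Approximated {n : ℕ} {F : Fld} (R : RepN K n F) : Prop :=
  ∃ L, FiniteGalois F L ∧ ∃ (m : ℕ) (S : RepN K m L), T.Geometric S ∧ ∃ k : ℕ, 0 < k ∧
    PositiveUpperDensity T.norm (T.Agree R S k)

/-- Known (Frobenius reciprocity, Clifford; a smooth projective variety over the finite extension `L` of
`F` is one over `F`, and its cohomology over `F` is the induced representation): if the irreducible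
representation `R` over `F` has on `Gal(Ω/L)` a common constituent with one of geometric origin, then `R`
is of geometric origin. -/
def Induction : Prop :=
  ∀ (n m : ℕ) (F L L' : Fld) (R : RepN K n F) (S : RepN K m L), F ≤ L → FiniteGalois L L' →
    Irreducible R → T.Geometric S → CommonConstituent L' R S → T.Geometric R

/-- Known (algebraic Chebotarev density theorem, Rajan): if the traces on the representations `R` and
`S`, unramified at almost all places, have the same `k`-th power and are not zero for a set of places of
`L` of positive upper density, then they agree up to one `k`-th root of unity on a coset of an open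
subgroup, and are not identically zero on this coset. -/
def Chebotarev : Prop :=
  ∀ (n m : ℕ) (F L : Fld) (R : RepN K n F) (S : RepN K m L) (k : ℕ), F ≤ L →
    T.Unramified R → T.Unramified S → 0 < k → PositiveUpperDensity T.norm (T.Agree R S k) →
    ∃ L', FiniteGalois L L' ∧ ∃ ζ : K, ζ ^ k = 1 ∧ ∃ g ∈ Gal L,
      (∀ x ∈ Gal L', (R.toFun (g * x)).trace = ζ * (S.toFun (g * x)).trace) ∧
      ∃ x ∈ Gal L', (R.toFun (g * x)).trace ≠ 0

/-- The known facts. `nonzero` (Chebotarev): the trace of the Frobenius elements is not zero for a set of
places of positive upper density, if the dimension is positive. -/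
structure Facts : Prop where
  induction : T.Induction
  chebotarev : T.Chebotarev
  nonzero : ∀ {n : ℕ} {F : Fld} (R : RepN K n F), 0 < n → IsNumberField F → T.Unramified R →
    PositiveUpperDensity T.norm {w : T.place F | (R.toFun (T.frob w)).trace ≠ 0}
  geometric : ∀ {n : ℕ} {F : Fld} (R : RepN K n F), T.Geometric R → T.Unramified R
  bianchi : ∀ {F : Fld} (f : T.Form F), T.Unramified (T.gal f) ∧ Irreducible (T.gal f)

end Data

end Pool.Agent.Q50.ES.GO
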