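import Pool.Agent.Q50.GO.Defs
import Pool.Agent.Q50.GO.Alg
import Pool.Agent.Q50.GN.Main

/-!
# Common constituents from the traces on a coset
-/

set_option autoImplicit false
set_option maxHeartbeats 4000000
set_option synthInstance.maxHeartbeats 400000
set_option linter.unusedSectionVars false
set_option linter.ambiguousOpen false

universe u

open NumberField Matrix

namespace Pool.Agent.Q50.ES.GO

open GN (MatN RepN)

variable {K : Type u} [Field K]

/-- **Algebra.** Let `s` be a monoid of pairs `(a, b)` of matrices such that `trace (c a) = trace (d b)`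
for all of them, not always zero. Then the two representations of `s` have a common non-zero
subquotient. -/
theorem common_subquotient {n m : ℕ}
    (s : Submonoid (Matrix (Fin n) (Fin n) K × Matrix (Fin m) (Fin m) K))
    {c : Matrix (Fin n) (Fin n) K} {d : Matrix (Fin m) (Fin m) K}
    (htr : ∀ p ∈ s, (c * p.1).trace = (d * p.2).trace)
    (hne : ∃ p ∈ s, (c * p.1).trace ≠ 0) :
    ∃ e : ℕ, 0 < e ∧ ∃ t : s → Matrix (Fin e) (Fin e) K,
      (∃ A : Submodule K (Fin n → K), ∃ φ : A →ₗ[K] (Fin e → K), Function.Surjective φ ∧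
        ∀ (p : s) (v : A), ∃ h : p.1.1 *ᵥ v.1 ∈ A, φ ⟨p.1.1 *ᵥ v.1, h⟩ = t p *ᵥ φ v) ∧
      ∃ A : Submodule K (Fin m → K), ∃ φ : A →ₗ[K] (Fin e → K), Function.Surjective φ ∧
        ∀ (p : s) (v : A), ∃ h : p.1.2 *ᵥ v.1 ∈ A, φ ⟨p.1.2 *ᵥ v.1, h⟩ = t p *ᵥ φ v := by
  classical
  let B := Algebra.adjoin K (s : Set (Matrix (Fin n) (Fin n) K × Matrix (Fin m) (Fin m) K))
  have hBs : Subalgebra.toSubmodule B = Submodule.span K (s : Set (_ × _)) := by
    change Subalgebra.toSubmodule (Algebra.adjoin K _) = _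
    rw [Algebra.adjoin_eq_span, Submonoid.closure_eq]
  have htrB : ∀ p ∈ B, (c * p.1).trace = (d * p.2).trace := by
    intro p hp
    have hp' : p ∈ Submodule.span K (s : Set (_ × _)) := by
      rw [← hBs]
      exact hp
    clear hp
    induction hp' using Submodule.span_induction with
    | mem x hx => exact htr x hx
    | zero => simp
    | add x y hx hy h1 h2 =>
      rw [Prod.fst_add, Prod.snd_add, mul_add, mul_add, trace_add, trace_add, h1, h2]
    | smul a x hx h1 =>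
      rw [Prod.smul_fst, Prod.smul_snd, mul_smul_comm, mul_smul_comm, trace_smul, trace_smul, h1]
  let π₁ : B →ₐ[K] Matrix (Fin n) (Fin n) K := (AlgHom.fst K _ _).comp B.val
  let π₂ : B →ₐ[K] Matrix (Fin m) (Fin m) K := (AlgHom.snd K _ _).comp B.val
  have hker₁ : ∀ b, b ∈ colIdeal π₁ n ↔ π₁ b = 0 := by
    intro b
    constructor
    · intro hb
      ext k i
      exact hb i i.isLt k
    · intro hb i _ k
      rw [hb, Matrix.zero_apply]
  have hker₂ : ∀ b, b ∈ colIdeal π₂ m ↔ π₂ b = 0 := by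
    intro b
    constructor
    · intro hb
      ext k i
      exact hb i i.isLt k
    · intro hb i _ k
      rw [hb, Matrix.zero_apply]
  have hsup : colIdeal π₁ n ⊔ colIdeal π₂ m ≠ ⊤ := by
    intro htop
    have h1 : (1 : B) ∈ colIdeal π₁ n ⊔ colIdeal π₂ m := by
      rw [htop]
      trivial
    obtain ⟨a, ha, b, hb, hab⟩ := Submodule.mem_sup.1 h1
    rw [hker₁] at ha
    rw [hker₂] at hb
    have hb1 : π₁ b = 1 := by
      have := congrArg π₁ hab
      rwa [map_add, ha, zero_add, map_one] at this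
    obtain ⟨p, hp, hpne⟩ := hne
    apply hpne
    let p' : B := ⟨p, Algebra.subset_adjoin hp⟩
    have h2 := htrB (p' * b : B).1 (p' * b).2
    have h3 : ((p' * b : B).1).1 = p.1 := by
      change p.1 * π₁ b = p.1
      rw [hb1, mul_one]
    have h4 : ((p' * b : B).1).2 = 0 := by
      change p.2 * π₂ b = 0
      rw [hb, mul_zero]
    rw [h3, h4, mul_zero, trace_zero] at h2
    exact h2
  obtain ⟨M, hM, hle⟩ := (eq_top_or_exists_le_coatom (colIdeal π₁ n ⊔ colIdeal π₂ m)).resolve_left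
    hsup
  obtain ⟨A₁, φ₁, hφ₁, h₁⟩ := subquotient_of_ker_le π₁ M hM fun b hb =>
    hle ((le_sup_left : _ ≤ colIdeal π₁ n ⊔ colIdeal π₂ m) ((hker₁ b).2 hb))
  obtain ⟨A₂, φ₂, hφ₂, h₂⟩ := subquotient_of_ker_le π₂ M hM fun b hb =>
    hle ((le_sup_right : _ ≤ colIdeal π₁ n ⊔ colIdeal π₂ m) ((hker₂ b).2 hb))
  have : Module.Finite K (B ⧸ M) := Module.Finite.of_surjective φ₁ hφ₁
  have : Nontrivial (B ⧸ M) := Submodule.Quotient.nontrivial_iff.2 hM.1
  let e : (B ⧸ M) ≃ₗ[K] (Fin (Module.finrank K (B ⧸ M)) → K) :=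
    (Module.finBasis K (B ⧸ M)).equivFun
  let act : B → ((B ⧸ M) →ₗ[K] (B ⧸ M)) := fun b => Algebra.lsmul K K (B ⧸ M) b
  let t : s → Matrix (Fin (Module.finrank K (B ⧸ M))) (Fin (Module.finrank K (B ⧸ M))) K :=
    fun p => LinearMap.toMatrix' ((e : _ →ₗ[K] _) ∘ₗ act ⟨p.1, Algebra.subset_adjoin p.2⟩ ∘ₗ
      (e.symm : _ →ₗ[K] _))
  refine ⟨Module.finrank K (B ⧸ M), Module.finrank_pos, t, ?_, ?_⟩
  · refine ⟨A₁, (e : _ →ₗ[K] _) ∘ₗ φ₁, e.surjective.comp hφ₁, fun p v => ?_⟩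
    obtain ⟨h, h'⟩ := h₁ ⟨p.1, Algebra.subset_adjoin p.2⟩ v
    refine ⟨h, ?_⟩
    change e (φ₁ ⟨p.1.1 *ᵥ v.1, h⟩) = t p *ᵥ e (φ₁ v)
    rw [LinearMap.toMatrix'_mulVec]
    change _ = e (act _ (e.symm (e (φ₁ v))))
    rw [LinearEquiv.symm_apply_apply]
    exact congrArg e h'
  · refine ⟨A₂, (e : _ →ₗ[K] _) ∘ₗ φ₂, e.surjective.comp hφ₂, fun p v => ?_⟩
    obtain ⟨h, h'⟩ := h₂ ⟨p.1, Algebra.subset_adjoin p.2⟩ v
    refine ⟨h, ?_⟩
    change e (φ₂ ⟨p.1.2 *ᵥ v.1, h⟩) = t p *ᵥ e (φ₂ v)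
    rw [LinearMap.toMatrix'_mulVec]
    change _ = e (act _ (e.symm (e (φ₂ v))))
    rw [LinearEquiv.symm_apply_apply]
    exact congrArg e h'

variable [TopologicalSpace K] [IsTopologicalRing K]

/-- If the traces agree on a coset of `Gal(Ω/L)` up to a factor and are not all zero, the representations
have a common constituent on `Gal(Ω/L)`. -/
theorem common_of_coset {n m : ℕ} {F F' L : Fld} (r : RepN K n F) (s : RepN K m F')
    (h : Gal L ⊆ Gal F) (h' : Gal L ⊆ Gal F') {g : Γ} (hg : g ∈ Gal F) (hg' : g ∈ Gal F') (ζ : K)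
    (htr : ∀ x ∈ Gal L, (r.toFun (g * x)).trace = ζ * (s.toFun (g * x)).trace)
    (hne : ∃ x ∈ Gal L, (r.toFun (g * x)).trace ≠ 0) : CommonConstituent L r s := by
  classical
  let S : Submonoid (MatN K n × MatN K m) :=
    { carrier := {p | ∃ x ∈ Gal L, p = (r.toFun x, s.toFun x)}
      mul_mem' := by
        rintro _ _ ⟨x, hx, rfl⟩ ⟨y, hy, rfl⟩
        refine ⟨x * y, gal_mul hx hy, ?_⟩
        rw [r.map_mul (h hx) (h hy), s.map_mul (h' hx) (h' hy)]
        rfl
      one_mem' := ⟨1, L.fixingSubgroup.one_mem, by rw [r.one, s.one]; rfl⟩ }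
  obtain ⟨e, he, t, ⟨A₁, φ₁, hφ₁, h₁⟩, A₂, φ₂, hφ₂, h₂⟩ := common_subquotient S
    (c := r.toFun g) (d := ζ • s.toFun g) (by
      rintro _ ⟨x, hx, rfl⟩
      have := htr x hx
      rw [r.map_mul hg (h hx), s.map_mul hg' (h' hx)] at this
      rw [smul_mul_assoc, trace_smul, smul_eq_mul]
      exact this) (by
      obtain ⟨x, hx, hx'⟩ := hne
      refine ⟨(r.toFun x, s.toFun x), ⟨x, hx, rfl⟩, ?_⟩
      rw [r.map_mul hg (h hx)] at hx'
      exact hx')
  have hmem : ∀ x ∈ Gal L, (r.toFun x, s.toFun x) ∈ S := fun x hx => ⟨x, hx, rfl⟩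
  refine ⟨e, he, fun x => if hx : x ∈ Gal L then t ⟨_, hmem x hx⟩ else 0,
    ⟨A₁, φ₁, hφ₁, fun x hx v => ?_⟩, ⟨A₂, φ₂, hφ₂, fun x hx v => ?_⟩⟩
  · obtain ⟨h3, h4⟩ := h₁ ⟨_, hmem x hx⟩ v
    refine ⟨h3, ?_⟩
    simp only [dif_pos hx]
    exact h4
  · obtain ⟨h3, h4⟩ := h₂ ⟨_, hmem x hx⟩ v
    refine ⟨h3, ?_⟩
    simp only [dif_pos hx]
    exact h4

namespace Data

variable {T : GO.Data K}

/-- **One representation.** -/
theorem geometric_iff (hT : T.Facts) {n : ℕ} {F : Fld} (hF : IsNumberField F) (R : RepN K n F)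
    (hR : Irreducible R) (hU : T.Unramified R) : T.Geometric R ↔ T.Approximated R := by
  constructor
  · intro h
    refine ⟨F, ⟨le_rfl, hF, fun g hg x hx => ?_⟩, n, R, h, 1, one_pos, ?_⟩
    · have hg' : g ∈ F.fixingSubgroup := hg
      rw [IntermediateField.mem_fixingSubgroup_iff] at hg'
      rw [hg' x hx]
      exact hx
    · have h1 : T.Agree R R 1 = {w : T.place F | (R.toFun (T.frob w)).trace ≠ 0} := by
        ext w
        exact ⟨fun hw => hw.2, fun hw => ⟨rfl, hw⟩⟩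
      rw [h1]
      exact hT.nonzero R hR.1 hF hU
  · rintro ⟨L, hFL, m, S, hS, k, hk, hd⟩
    obtain ⟨L', hLL', ζ, -, g, hg, htr, hne⟩ := hT.chebotarev n m F L R S k hFL.1 hU
      (hT.geometric S hS) hk hd
    exact hT.induction n m F L L' R S hFL.1 hLL' hR hS
      (common_of_coset R S (fix_le (hFL.1.trans hLL'.1)) (fix_le hLL'.1) (fix_le hFL.1 hg) hg ζ
        htr hne)

/-- **Bianchi newforms.** -/
theorem bianchi_iff (hT : T.Facts) :
    (∀ F, GE.ImaginaryQuadratic F → ∀ f : T.Form F, T.Geometric (T.gal f)) ↔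
      ∀ F, GE.ImaginaryQuadratic F → ∀ f : T.Form F, T.Approximated (T.gal f) := by
  constructor
  · intro h F hF f
    exact (geometric_iff hT hF.1.1 _ (hT.bianchi f).2 (hT.bianchi f).1).1 (h F hF f)
  · intro h F hF f
    exact (geometric_iff hT hF.1.1 _ (hT.bianchi f).2 (hT.bianchi f).1).2 (h F hF f)

end Data

end Pool.Agent.Q50.ES.GO
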